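import Pool.Agent.H76.SD.Targets

/-! # BL0: one block, normalised -/

set_option autoImplicit false

namespace Pool.Agent.H86.SD

open Finset
open Pool.Agent.H76.SD
open Pool.Agent.H1.LP (Loc PD Viol Sys supp ip val Agree FS Typ kk)

theorem bl_PD_abs {p B d : ℕ} [NeZero p] {Q : Type} (S : Loc p B d) (al : Fin B → Q → ZMod p)
    (x : Fin B → Q) : |PD S al x| ≤ (p : ℝ) ^ B := by
  unfold PD
  refine (abs_sum_le_sum_abs _ _).trans ?_
  calc ∑ l ∈ S.La, |(ZMod.stdAddChar (ip l (val al x) - S.ga l)).re| ≤ ∑ l ∈ S.La, (1 : ℝ) := by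
        refine sum_le_sum fun l _ => ?_
        refine (Complex.abs_re_le_norm _).trans ?_
        rw [AddChar.norm_apply]
    _ = S.La.card := by simp
    _ ≤ Fintype.card (Fin B → ZMod p) := by exact_mod_cast card_le_univ _
    _ = (p : ℝ) ^ B := by
        rw [Fintype.card_fun, Fintype.card_fin, ZMod.card]
        push_cast
        rfl

theorem num_le_sum {α ι : Type} [Fintype α] (s : Finset ι) (R : ι → α → Prop) (R0 : α → Prop)
    (h : ∀ a, R0 a → ∃ i ∈ s, R i a) : num R0 ≤ ∑ i ∈ s, num (R i) := by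
  classical
  unfold num
  have h1 : univ.filter R0 ⊆ s.biUnion fun i => univ.filter (R i) := by
    intro a ha
    rw [mem_filter] at ha
    obtain ⟨i, hi, hR⟩ := h a ha.2
    exact mem_biUnion.mpr ⟨i, hi, mem_filter.mpr ⟨mem_univ _, hR⟩⟩
  have h2 := (card_le_card h1).trans card_biUnion_le
  have h3 : (((univ.filter R0).card : ℕ) : ℝ) ≤
      ((∑ i ∈ s, (univ.filter (R i)).card : ℕ) : ℝ) := by exact_mod_cast h2
  rw [Nat.cast_sum] at h3
  convert h3 using 2

theorem num_finset {α : Type} [Fintype α] (R : α → Prop) :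
    ∃ A : Finset α, (∀ x, x ∈ A ↔ R x) ∧ (A.card : ℝ) = num R := by
  classical
  exact ⟨univ.filter R, fun x => by simp, rfl⟩

theorem num_false {α : Type} [Fintype α] (R : α → Prop) (h : ∀ x, ¬ R x) : num R = 0 := by
  classical
  unfold num
  rw [Nat.cast_eq_zero, card_eq_zero, filter_eq_empty_iff]
  exact fun x _ => h x

theorem lev_le {B : ℕ} {Q : Type} [Fintype Q] (v : (Fin B → Q) → ℝ) (D E : ℕ)
    (x : Fin B → Q) (j : Fin B) : lev v D E x j ≤ E := by
  unfold lev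
  exact Nat.findGreatest_le E

/-- the vector of levels -/
noncomputable def aof {B : ℕ} {Q : Type} [Fintype Q] (v : (Fin B → Q) → ℝ) (D E : ℕ)
    (x : Fin B → Q) (j : Fin B) : Fin (E + 1) :=
  ⟨lev v D E x j, Nat.lt_succ_of_le (lev_le v D E x j)⟩

theorem light_card (hCL2 : T_CL2) {B D E : ℕ} {Q : Type} [Fintype Q] [DecidableEq Q]
    (v : (Fin B → Q) → ℝ) (hD : 1 ≤ D) (hQ : Fintype.card Q = D ^ E) (hv : ∀ x, 0 ≤ v x)
    (hEB : (E + 1) ^ B ≤ D) (kap : ℕ) :
    num (fun x : Fin B → Q => ∑ j, lev v D E x j < kap) ≤ (D : ℝ) ^ (1 + kap + B) := by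
  have hD1 : (1 : ℝ) ≤ D := by exact_mod_cast hD
  have h1 : num (fun x : Fin B → Q => ∑ j, lev v D E x j < kap) ≤
      ∑ a ∈ univ.filter (fun a : Fin B → Fin (E + 1) => ∑ j, (a j : ℕ) < kap),
        num (fun x : Fin B → Q => ∀ j, lev v D E x j = (a j : ℕ)) := by
    apply num_le_sum
    intro x hx
    refine ⟨aof v D E x, mem_filter.mpr ⟨mem_univ _, hx⟩, fun j => rfl⟩
  refine h1.trans ?_
  have h2 : ∀ a ∈ univ.filter (fun a : Fin B → Fin (E + 1) => ∑ j, (a j : ℕ) < kap),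
      num (fun x : Fin B → Q => ∀ j, lev v D E x j = (a j : ℕ)) ≤ (D : ℝ) ^ (kap + B) := by
    intro a ha
    refine (hCL2 B D E Q v (fun j => (a j : ℕ)) hD hQ hv).trans ?_
    refine pow_le_pow_right₀ hD1 ?_
    rw [sum_add_distrib]
    have := (mem_filter.mp ha).2
    simp
    omega
  refine (sum_le_card_nsmul _ _ _ h2).trans ?_
  rw [nsmul_eq_mul]
  have h3 : ((univ.filter (fun a : Fin B → Fin (E + 1) => ∑ j, (a j : ℕ) < kap)).card : ℝ) ≤ D := by
    have h4 : (univ.filter (fun a : Fin B → Fin (E + 1) => ∑ j, (a j : ℕ) < kap)).card ≤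
        (E + 1) ^ B := by
      refine (card_le_univ _).trans ?_
      rw [Fintype.card_fun, Fintype.card_fin, Fintype.card_fin]
    exact_mod_cast h4.trans hEB
  calc _ ≤ (D : ℝ) * (D : ℝ) ^ (kap + B) := mul_le_mul_of_nonneg_right h3 (by positivity)
    _ = _ := by rw [add_assoc, pow_add _ 1, pow_one]

theorem bl_num1 {E B t g : ℕ} (hg : (4 * E + 1) * B + t + 4 ≤ g) :
    12 * (2 : ℝ) ^ ((4 * E + 1) * B) * (1 / 2) ^ g ≤ (1 / 2) ^ t := by
  rw [one_div, inv_pow, inv_pow]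
  have h1 : (0 : ℝ) < 2 ^ g := by positivity
  have h2 : (0 : ℝ) < 2 ^ t := by positivity
  rw [← div_eq_mul_inv, div_le_iff₀ h1, ← div_eq_inv_mul, le_div_iff₀ h2]
  calc 12 * (2 : ℝ) ^ ((4 * E + 1) * B) * 2 ^ t ≤ 2 ^ 4 * (2 : ℝ) ^ ((4 * E + 1) * B) * 2 ^ t := by
        have : (0 : ℝ) < (2 : ℝ) ^ ((4 * E + 1) * B) * 2 ^ t := by positivity
        nlinarith
    _ = 2 ^ (4 + (4 * E + 1) * B + t) := by rw [pow_add, pow_add]
    _ ≤ 2 ^ g := pow_le_pow_right₀ (by norm_num) (by omega)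

theorem bl_num2 {E B t g r : ℕ} (hg : (4 * E + 1) * B + t + 4 ≤ g) {rho0 : ℕ}
    (hr : (r : ℝ) ≤ ((2 : ℝ) ^ (4 * g)) ^ rho0) :
    2 ^ B * (((2 ^ (4 * g) : ℕ) : ℝ)) ^ B * ((r : ℝ) / ((2 : ℝ) ^ (4 * g)) ^ (B + rho0 + 1)) ≤
      ((1 / 2 : ℝ) ^ g) ^ 2 := by
  push_cast
  set D : ℝ := (2 : ℝ) ^ (4 * g) with hD
  have hD0 : 0 < D := by positivity
  have hBg : B ≤ g := by nlinarith
  have h1 : (r : ℝ) / D ^ (B + rho0 + 1) ≤ 1 / D ^ (B + 1) := by
    rw [div_le_div_iff₀ (by positivity) (by positivity), one_mul]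
    calc (r : ℝ) * D ^ (B + 1) ≤ D ^ rho0 * D ^ (B + 1) :=
          mul_le_mul_of_nonneg_right hr (by positivity)
      _ = D ^ (B + rho0 + 1) := by rw [← pow_add]; congr 1; ring
  calc 2 ^ B * D ^ B * ((r : ℝ) / D ^ (B + rho0 + 1)) ≤ 2 ^ B * D ^ B * (1 / D ^ (B + 1)) :=
        mul_le_mul_of_nonneg_left h1 (by positivity)
    _ = 2 ^ B / D := by
        rw [pow_succ]
        field_simp
    _ ≤ ((1 / 2 : ℝ) ^ g) ^ 2 := by
        have e1 : ((1 / 2 : ℝ) ^ g) ^ 2 * 2 ^ (4 * g) = 2 ^ (2 * g) := by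
          rw [show 4 * g = g + g + 2 * g by ring, pow_add, pow_add, one_div, inv_pow]
          have : (0 : ℝ) < 2 ^ g := by positivity
          field_simp
        rw [div_le_iff₀ hD0, hD, e1]
        exact pow_le_pow_right₀ (by norm_num) (by omega)

theorem heavy_num (hCOR : T_COR) (hCL1 : T_CL1) (hBLN : T_BLN) {E g B t r p : ℕ}
    [hp' : Fact p.Prime] {Q : Type} [Fintype Q] [DecidableEq Q]
    (S : Loc p B (B - 8 * (B / E))) (V : (Fin B → Q) → Matrix (Fin r) (Fin r) ℝ)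
    (hE : 16 ≤ E) (hB : 1 ≤ B) (hp : p ≤ 2 ^ (4 * E + 1))
    (hg : (4 * E + 1) * B + t + 4 ≤ g) (hEB : (E + 1) ^ B ≤ 2 ^ (4 * g)) (hr : r ≤ 2 ^ 2 ^ (2 * g))
    (hV : ∀ x, (V x).PosSemidef) (hV1 : ∑ x, V x = 1)
    (a : Fin B → ℕ) (haE : ∀ j, a j ≤ E) (rho0 : ℕ) (hrho : r ≤ (2 ^ (4 * g)) ^ rho0)
    (ha : 2 * (B + rho0) + E * (8 * (B / E)) ≤ ∑ j, a j)
    (W : (Fin B → Q) → Matrix (Fin r) (Fin r) ℝ)
    (hW1 : ∀ x, (∀ j, lev (fun x => (V x).trace) (2 ^ (4 * g)) E x j = a j) → W x = V x)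
    (hW2 : ∀ x, ¬ (∀ j, lev (fun x => (V x).trace) (2 ^ (4 * g)) E x j = a j) → W x = 0) :
    ((E : ℝ) + 1) ^ B * num (fun al : Fin B → Q → ZMod p =>
      ¬ (((1 / 2 : ℝ) ^ t) • (1 : Matrix (Fin r) (Fin r) ℝ) + MM S W al).PosSemidef) ≤
      (1 / 2) ^ 2 ^ (2 * g) * Fintype.card (Fin B → Q → ZMod p) := by
  set v : (Fin B → Q) → ℝ := fun x => (V x).trace with hv
  have hv0 : ∀ x, 0 ≤ v x := fun x => (hV x).trace_nonneg
  have hvs : ∑ x, v x = r := by
    have h := congrArg Matrix.trace hV1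
    rw [Matrix.trace_sum, Matrix.trace_one, Fintype.card_fin] at h
    exact h
  have hD1 : (1 : ℝ) ≤ (2 : ℝ) ^ (4 * g) := one_le_pow₀ (by norm_num)
  have hcor := hCOR p B (B - 8 * (B / E)) r (2 ^ (4 * g)) Q S W
    (univ.filter fun L : Finset (Fin B) => ∑ j ∈ L, a j ≤ B + rho0)
    ((2 : ℝ) ^ ((4 * E + 1) * B)) ((r : ℝ) / ((2 : ℝ) ^ (4 * g)) ^ (B + rho0 + 1))
    ((1 / 2 : ℝ) ^ g) ((1 / 2 : ℝ) ^ t) ?_ ?_ ?_ ?_ ?_ ?_ ?_ ?_ ?_ ?_ ?_ ?_
  · exact hBLN E g B t r hE hB hg hEB hr _ _ (Nat.cast_nonneg _) hcor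
  · intro L hL L' hL'
    rw [mem_filter] at hL hL'
    have h1 := sum_union_inter (s₁ := L) (s₂ := L') (f := a)
    have h2 := sum_add_sum_compl (L ∪ L') a
    have h3 : ∑ j ∈ (L ∪ L')ᶜ, a j ≤ ((L ∪ L')ᶜ).card * E := by
      have := sum_le_card_nsmul ((L ∪ L')ᶜ) a E fun j _ => haE j
      rwa [smul_eq_mul] at this
    have h4 : E * (8 * (B / E)) ≤ E * ((L ∪ L')ᶜ).card := by
      rw [mul_comm E ((L ∪ L')ᶜ).card]
      omega
    have h5 : 8 * (B / E) ≤ ((L ∪ L')ᶜ).card := Nat.le_of_mul_le_mul_left h4 (by omega)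
    have h6 := card_add_card_compl (L ∪ L')
    rw [Fintype.card_fin] at h6
    omega
  · intro al x
    refine (bl_PD_abs S al x).trans ?_
    rw [pow_mul]
    refine pow_le_pow_left₀ (Nat.cast_nonneg _) ?_ B
    exact_mod_cast hp
  · intro x
    by_cases h : ∀ j, lev v (2 ^ (4 * g)) E x j = a j
    · rw [hW1 x h]
      exact hV x
    · rw [hW2 x h]
      exact Matrix.PosSemidef.zero
  · rw [← hV1, ← sum_sub_distrib]
    refine Matrix.posSemidef_sum _ fun x _ => ?_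
    by_cases h : ∀ j, lev v (2 ^ (4 * g)) E x j = a j
    · rw [hW1 x h, sub_self]
      exact Matrix.PosSemidef.zero
    · rw [hW2 x h, sub_zero]
      exact hV x
  · exact Nat.one_le_two_pow
  · positivity
  · intro L hL y
    have hL1 : B + rho0 + 1 ≤ ∑ j ∈ L, a j := by
      by_contra h
      exact hL (mem_filter.mpr ⟨mem_univ _, by omega⟩)
    have h1 := hCL1 B (2 ^ (4 * g)) E Q v a L y Nat.one_le_two_pow hv0
    rw [hvs] at h1
    have h2 : ∑ x with Agree L x y, (W x).trace =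
        ∑ x with (Agree L x y ∧ ∀ j, lev v (2 ^ (4 * g)) E x j = a j), v x := by
      rw [sum_filter, sum_filter]
      refine sum_congr rfl fun x _ => ?_
      by_cases hA : Agree L x y
      · by_cases hl : ∀ j, lev v (2 ^ (4 * g)) E x j = a j
        · rw [if_pos hA, if_pos ⟨hA, hl⟩, hW1 x hl]
        · rw [if_pos hA, if_neg fun h => hl h.2, hW2 x hl, Matrix.trace_zero]
      · rw [if_neg hA, if_neg fun h => hA h.1]
    rw [h2, le_div_iff₀ (by positivity)]
    refine le_trans (mul_le_mul_of_nonneg_left ?_ (sum_nonneg fun x _ => hv0 x)) h1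
    push_cast
    exact pow_le_pow_right₀ hD1 hL1
  · positivity
  · exact bl_num2 hg (by exact_mod_cast hrho)
  · positivity
  · calc ((1 / 2 : ℝ)) ^ t ≤ 1 := pow_le_one₀ (by norm_num) (by norm_num)
      _ ≤ _ := one_le_pow₀ (by norm_num)
  · exact bl_num1 hg

theorem bl_psd {E B r p d : ℕ} [Fact p.Prime] {Q : Type} [Fintype Q] [DecidableEq Q]
    (S : Loc p B d) (V : (Fin B → Q) → Matrix (Fin r) (Fin r) ℝ)
    (hV : ∀ x, (V x).PosSemidef) (hV1 : ∑ x, V x = 1)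
    (lv : (Fin B → Q) → (Fin B → Fin (E + 1))) (Hv : Finset (Fin B → Fin (E + 1)))
    (Li : Finset (Fin B → Q)) (hLi : ∀ x, x ∈ Li ↔ lv x ∉ Hv)
    (al : Fin B → Q → ZMod p) (ε La : ℝ) (hε : 0 ≤ ε) (hLa : ∀ x, |PD S al x| ≤ La)
    (hH : ∀ a ∈ Hv, (ε • (1 : Matrix (Fin r) (Fin r) ℝ) +
      MM S (fun x => if lv x = a then V x else 0) al).PosSemidef) :
    (∑ x, (PD S al x + ((E : ℝ) + 1) ^ B * ε + La * ind Li x) • V x).PosSemidef := by
  have hcard : (Hv.card : ℝ) ≤ ((E : ℝ) + 1) ^ B := by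
    have h4 : Hv.card ≤ (E + 1) ^ B := by
      refine (card_le_univ _).trans ?_
      rw [Fintype.card_fun, Fintype.card_fin, Fintype.card_fin]
    exact_mod_cast h4
  have key : ∑ x, (PD S al x + ((E : ℝ) + 1) ^ B * ε + La * ind Li x) • V x =
      ∑ a ∈ Hv, (ε • (1 : Matrix (Fin r) (Fin r) ℝ) +
        MM S (fun x => if lv x = a then V x else 0) al) +
      (((((E : ℝ) + 1) ^ B - Hv.card) * ε) • (1 : Matrix (Fin r) (Fin r) ℝ) +
      ∑ x, if x ∈ Li then (PD S al x + La) • V x else 0) := by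
    have e1 : ∑ a ∈ Hv, MM S (fun x => if lv x = a then V x else 0) al =
        ∑ x, if lv x ∈ Hv then PD S al x • V x else 0 := by
      unfold MM
      rw [sum_comm]
      refine sum_congr rfl fun x _ => ?_
      rw [← smul_sum, sum_ite_eq]
      split_ifs
      · rfl
      · rw [smul_zero]
    rw [sum_add_distrib, e1, sum_const, ← Nat.cast_smul_eq_nsmul ℝ, smul_smul]
    have e2 : ((Hv.card : ℝ) * ε) • (1 : Matrix (Fin r) (Fin r) ℝ) +
        (∑ x, if lv x ∈ Hv then PD S al x • V x else 0) +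
        (((((E : ℝ) + 1) ^ B - Hv.card) * ε) • (1 : Matrix (Fin r) (Fin r) ℝ) +
          ∑ x, if x ∈ Li then (PD S al x + La) • V x else 0) =
        ((((E : ℝ) + 1) ^ B) * ε) • (1 : Matrix (Fin r) (Fin r) ℝ) +
        ((∑ x, if lv x ∈ Hv then PD S al x • V x else 0) +
          ∑ x, if x ∈ Li then (PD S al x + La) • V x else 0) := by
      rw [sub_mul, sub_smul]
      abel
    rw [e2, ← hV1, smul_sum, ← sum_add_distrib, ← sum_add_distrib]
    refine sum_congr rfl fun x _ => ?_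
    by_cases hx : x ∈ Li
    · have hx' := (hLi x).mp hx
      rw [if_neg hx', if_pos hx, ind, if_pos hx, zero_add, ← add_smul]
      congr 1
      ring
    · have hx' : lv x ∈ Hv := by
        by_contra h
        exact hx ((hLi x).mpr h)
      rw [if_pos hx', if_neg hx, ind, if_neg hx, add_zero, ← add_smul]
      congr 1
      ring
  rw [key]
  refine Matrix.PosSemidef.add (Matrix.posSemidef_sum _ hH) (Matrix.PosSemidef.add ?_ ?_)
  · exact Matrix.PosSemidef.one.smul (mul_nonneg (sub_nonneg.mpr hcard) hε)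
  · refine Matrix.posSemidef_sum _ fun x _ => ?_
    split_ifs
    · refine (hV x).smul ?_
      have := neg_le_of_abs_le (hLa x)
      linarith
    · exact Matrix.PosSemidef.zero

theorem bl0 (hCOR : T_COR) (hCL1 : T_CL1) (hCL2 : T_CL2) (hBLN : T_BLN) : T_BL0 := by
  intro E g B t r p _ Q _ _ S V hE hB hp hQ hg hEB hr hV hV1
  rcases Nat.eq_zero_or_pos r with hr0 | hr1
  · subst hr0
    refine ⟨∅, by simp, ?_⟩
    rw [num_false]
    · positivity
    · intro al h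
      apply h
      rw [Subsingleton.elim (∑ x, _) (0 : Matrix (Fin 0) (Fin 0) ℝ)]
      exact Matrix.PosSemidef.zero
  set D : ℕ := 2 ^ (4 * g) with hD
  set v : (Fin B → Q) → ℝ := fun x => (V x).trace with hv
  have hv0 : ∀ x, 0 ≤ v x := fun x => (hV x).trace_nonneg
  have hBE : 1 ≤ (4 * E + 1) * B := Nat.mul_pos (by omega) hB
  have hD1 : 1 < D := Nat.one_lt_two_pow (by omega)
  set rho0 : ℕ := Nat.clog D r with hrho0
  have hr2 : r ≤ D ^ rho0 := Nat.le_pow_clog hD1 r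
  have hr3 : D ^ rho0 ≤ D * r := by
    rcases Nat.lt_or_ge 1 r with h1 | h1
    · have h2 := Nat.pow_pred_clog_lt_self hD1 h1
      rw [← hrho0] at h2
      have h3 : 0 < rho0 := Nat.clog_pos hD1 h1
      obtain ⟨k, hk⟩ : ∃ k, rho0 = k + 1 := ⟨rho0 - 1, by omega⟩
      rw [hk, Nat.pred_succ] at h2
      rw [hk, pow_succ, mul_comm]
      exact Nat.mul_le_mul_left _ h2.le
    · have h2 : r = 1 := by omega
      rw [hrho0, h2, Nat.clog_one_right, pow_zero, mul_one]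
      exact hD1.le
  set kap : ℕ := 2 * (B + rho0) + E * (8 * (B / E)) with hkap
  obtain ⟨Li, hLi1, hLi2⟩ := num_finset (fun x : Fin B → Q => ∑ j, lev v D E x j < kap)
  have hlight := light_card hCL2 v hD1.le hQ hv0 hEB kap
  set Hv : Finset (Fin B → Fin (E + 1)) :=
    univ.filter (fun a => kap ≤ ∑ j, (a j : ℕ)) with hHv
  have hLi3 : ∀ x, x ∈ Li ↔ aof v D E x ∉ Hv := by
    intro x
    rw [hLi1, hHv, mem_filter, not_and_or, not_le]
    have : ∑ j, ((aof v D E x j : Fin (E + 1)) : ℕ) = ∑ j, lev v D E x j := rfl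
    rw [this]
    simp
  refine ⟨Li, ?_, ?_⟩
  · rw [hLi2]
    refine hlight.trans ?_
    have hDr : ((D : ℝ)) = 2 ^ (4 * g) := by rw [hD]; push_cast; rfl
    rw [← hDr]
    have hk2 : 1 + kap + B ≤ (11 * B + 1) + (rho0 + rho0) := by
      have : E * (8 * (B / E)) ≤ 8 * B := by
        have := Nat.mul_div_le B E
        nlinarith
      omega
    have hD1' : (1 : ℝ) ≤ D := by exact_mod_cast hD1.le
    have hr3' : (D : ℝ) ^ rho0 ≤ D * r := by exact_mod_cast hr3
    calc (D : ℝ) ^ (1 + kap + B) ≤ (D : ℝ) ^ ((11 * B + 1) + (rho0 + rho0)) :=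
          pow_le_pow_right₀ hD1' hk2
      _ = (D : ℝ) ^ (11 * B + 1) * ((D : ℝ) ^ rho0 * (D : ℝ) ^ rho0) := by
          rw [pow_add, pow_add _ rho0]
      _ ≤ (D : ℝ) ^ (11 * B + 1) * ((D * r) * (D * r)) := by
          refine mul_le_mul_of_nonneg_left ?_ (by positivity)
          exact mul_le_mul hr3' hr3' (by positivity) (by positivity)
      _ = _ := by ring
  · have hbad : ∀ al : Fin B → Q → ZMod p,
        (¬ (∑ x, (PD S al x + ((E : ℝ) + 1) ^ B * (1 / 2) ^ t +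
          2 ^ ((4 * E + 1) * B) * ind Li x) • V x).PosSemidef) →
        ∃ a ∈ Hv, ¬ (((1 / 2 : ℝ) ^ t) • (1 : Matrix (Fin r) (Fin r) ℝ) +
          MM S (fun x => if aof v D E x = a then V x else 0) al).PosSemidef := by
      intro al hal
      by_contra hcon
      push Not at hcon
      apply hal
      refine bl_psd S V hV hV1 (aof v D E) Hv Li hLi3 al ((1 / 2) ^ t)
        (2 ^ ((4 * E + 1) * B)) (by positivity) (fun x => ?_) hcon
      refine (bl_PD_abs S al x).trans ?_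
      rw [pow_mul]
      refine pow_le_pow_left₀ (Nat.cast_nonneg _) ?_ B
      exact_mod_cast hp
    refine (num_le_sum Hv _ _ hbad).trans ?_
    set T : ℝ := (1 / 2) ^ 2 ^ (2 * g) * Fintype.card (Fin B → Q → ZMod p) with hT
    have hT0 : 0 ≤ T := by positivity
    have hc0 : (0 : ℝ) < ((E : ℝ) + 1) ^ B := by positivity
    have h1 : ∀ a ∈ Hv, num (fun al : Fin B → Q → ZMod p =>
        ¬ (((1 / 2 : ℝ) ^ t) • (1 : Matrix (Fin r) (Fin r) ℝ) +
          MM S (fun x => if aof v D E x = a then V x else 0) al).PosSemidef) ≤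
        T / ((E : ℝ) + 1) ^ B := by
      intro a ha
      rw [le_div_iff₀ hc0, mul_comm]
      refine heavy_num hCOR hCL1 hBLN S V hE hB hp hg hEB hr hV hV1 (fun j => (a j : ℕ))
        (fun j => Nat.lt_succ_iff.mp (a j).2) rho0 hr2 (mem_filter.mp ha).2 _ ?_ ?_
      · intro x hx
        rw [if_pos]
        exact funext fun j => Fin.ext (hx j)
      · intro x hx
        rw [if_neg]
        intro h
        apply hx
        intro j
        rw [← h]
        rfl
    refine (sum_le_card_nsmul _ _ _ h1).trans ?_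
    rw [nsmul_eq_mul]
    have hcard : (Hv.card : ℝ) ≤ ((E : ℝ) + 1) ^ B := by
      have h4 : Hv.card ≤ (E + 1) ^ B := by
        refine (card_le_univ _).trans ?_
        rw [Fintype.card_fun, Fintype.card_fin, Fintype.card_fin]
      exact_mod_cast h4
    calc (Hv.card : ℝ) * (T / ((E : ℝ) + 1) ^ B) ≤
          ((E : ℝ) + 1) ^ B * (T / ((E : ℝ) + 1) ^ B) :=
          mul_le_mul_of_nonneg_right hcard (by positivity)
      _ = T := by field_simp

end Pool.Agent.H86.SD
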