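import Pool.Agent.H76.SD.Targets

/-! # CHR: orthogonality of characters and Parseval -/

set_option autoImplicit false

namespace Pool.Agent.H86.SD

open Finset
open Pool.Agent.H76.SD
open Pool.Agent.H1.LP (Loc PD Viol Sys supp ip val Agree FS Typ kk)

section
variable {p B : ℕ} {Q : Type} [Fintype Q]

theorem tp_add_left (ga ga' al : Fin B → Q → ZMod p) :
    tp (ga + ga') al = tp ga al + tp ga' al := by
  unfold tp
  rw [← sum_add_distrib]
  refine sum_congr rfl fun j _ => ?_
  rw [← sum_add_distrib]
  refine sum_congr rfl fun q _ => ?_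
  rw [Pi.add_apply, Pi.add_apply, add_mul]

theorem tp_add_right (ga al al' : Fin B → Q → ZMod p) :
    tp ga (al + al') = tp ga al + tp ga al' := by
  unfold tp
  rw [← sum_add_distrib]
  refine sum_congr rfl fun j _ => ?_
  rw [← sum_add_distrib]
  refine sum_congr rfl fun q _ => ?_
  rw [Pi.add_apply, Pi.add_apply, mul_add]

theorem tp_zero_left (al : Fin B → Q → ZMod p) : tp 0 al = 0 := by
  unfold tp
  simp

theorem tp_neg_left (ga al : Fin B → Q → ZMod p) : tp (-ga) al = -tp ga al := by
  unfold tp
  rw [← sum_neg_distrib]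
  refine sum_congr rfl fun j _ => ?_
  rw [← sum_neg_distrib]
  refine sum_congr rfl fun q _ => ?_
  rw [Pi.neg_apply, Pi.neg_apply, neg_mul]

variable [NeZero p]

theorem chr_add_right (ga al al' : Fin B → Q → ZMod p) :
    chr ga (al + al') = chr ga al * chr ga al' := by
  unfold chr
  rw [tp_add_right, AddChar.map_add_eq_mul]

theorem chr_add_left (ga ga' al : Fin B → Q → ZMod p) :
    chr (ga + ga') al = chr ga al * chr ga' al := by
  unfold chr
  rw [tp_add_left, AddChar.map_add_eq_mul]

theorem chr_zero_left (al : Fin B → Q → ZMod p) : chr 0 al = 1 := by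
  unfold chr
  rw [tp_zero_left, AddChar.map_zero_eq_one]

theorem chr_conj (ga al : Fin B → Q → ZMod p) :
    (starRingEnd ℂ) (chr ga al) = chr (-ga) al := by
  unfold chr
  rw [tp_neg_left, AddChar.map_neg_eq_conj]

theorem chr_mul_conj (ga ga' al : Fin B → Q → ZMod p) :
    chr ga al * (starRingEnd ℂ) (chr ga' al) = chr (ga - ga') al := by
  rw [chr_conj, ← chr_add_left, sub_eq_add_neg]

theorem chr_sum [DecidableEq Q] (ga : Fin B → Q → ZMod p) : ∑ al, chr ga al =
      if ga = 0 then (Fintype.card (Fin B → Q → ZMod p) : ℂ) else 0 := by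
  split_ifs with h
  · rw [h, sum_congr rfl fun al _ => chr_zero_left al, sum_const, card_univ, nsmul_eq_mul, mul_one]
  · have h1 : ∃ j0 q0, ga j0 q0 ≠ 0 := by
      by_contra h2
      push Not at h2
      exact h (funext fun j => funext fun q => h2 j q)
    obtain ⟨j0, q0, h0⟩ := h1
    set e : Fin B → Q → ZMod p := fun j q => if j = j0 ∧ q = q0 then 1 else 0 with he
    have he1 : tp ga e = ga j0 q0 := by
      unfold tp
      rw [sum_eq_single j0, sum_eq_single q0]
      · simp [he]
      · intro q _ hq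
        simp [he, hq]
      · intro hq
        exact absurd (mem_univ _) hq
      · intro j _ hj
        refine sum_eq_zero fun q _ => ?_
        simp [he, hj]
      · intro hj
        exact absurd (mem_univ _) hj
    have h2 : ∑ al, chr ga al = (∑ al, chr ga al) * ZMod.stdAddChar (ga j0 q0) := by
      conv_lhs => rw [← Equiv.sum_comp (Equiv.addRight e)]
      rw [sum_mul]
      refine sum_congr rfl fun al _ => ?_
      rw [Equiv.coe_addRight, chr_add_right]
      congr 1
      unfold chr
      rw [he1]
    have h3 : (ZMod.stdAddChar (ga j0 q0) : ℂ) ≠ 1 := by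
      intro h4
      apply h0
      apply ZMod.injective_stdAddChar
      rw [h4, AddChar.map_zero_eq_one]
    have h4 : (∑ al, chr ga al) * (1 - ZMod.stdAddChar (ga j0 q0)) = 0 := by
      rw [mul_sub, mul_one, ← h2, sub_self]
    rcases mul_eq_zero.mp h4 with h5 | h5
    · exact h5
    · exact absurd (sub_eq_zero.mp h5).symm h3

end

theorem chr_ : T_CHR := by
  intro p B _ Q _ _
  refine ⟨fun ga => chr_sum ga, fun Ga c => ?_⟩
  apply Complex.ofReal_injective
  push_cast
  have h1 : ∀ al : Fin B → Q → ZMod p,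
      ((‖∑ ga ∈ Ga, c ga * chr ga al‖ : ℝ) : ℂ) ^ 2 =
      ∑ ga ∈ Ga, ∑ ga' ∈ Ga, c ga * (starRingEnd ℂ) (c ga') * chr (ga - ga') al := by
    intro al
    rw [← Complex.mul_conj', map_sum, sum_mul_sum]
    refine sum_congr rfl fun ga _ => sum_congr rfl fun ga' _ => ?_
    rw [map_mul, ← chr_mul_conj]
    ring
  rw [sum_congr rfl fun al _ => h1 al, sum_comm, mul_sum]
  refine sum_congr rfl fun ga hga => ?_
  rw [sum_comm]
  have h2 : ∀ ga' ∈ Ga, ∑ al : Fin B → Q → ZMod p,
      c ga * (starRingEnd ℂ) (c ga') * chr (ga - ga') al =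
      if ga = ga' then (Fintype.card (Fin B → Q → ZMod p) : ℂ) *
        (c ga * (starRingEnd ℂ) (c ga')) else 0 := by
    intro ga' _
    rw [← mul_sum, chr_sum]
    by_cases h : ga = ga'
    · rw [if_pos h, if_pos (sub_eq_zero.mpr h), mul_comm]
    · rw [if_neg h, if_neg fun h' => h (sub_eq_zero.mp h'), mul_zero]
  rw [sum_congr rfl h2, sum_ite_eq, if_pos hga, Complex.mul_conj']

end Pool.Agent.H86.SD
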