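import Pool.Agent.H97.SD.Targets

/-! LOW: the lower bound for the formula on blocks. -/

set_option autoImplicit false

open Finset Pool.Agent.H97.SD

namespace Pool.Agent.H86.SD

theorem pf_LOW (hSTR : P_STR) (hGEN : P_GEN) (hGAM : P_GAM) (hCNT : P_CNT) : P_LOW := by
  intro N M k a b σ h r p e L m D P hr hrk hp hb hab hN h1 h2 hD hP
  have hne : Nonempty (BV N a b) := by
    have ha0 : 0 < a := Nat.pos_of_ne_zero (by
      rintro rfl
      omega)
    have hb0 : 0 < b := hb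
    exact ⟨(⟨0, hN⟩, ⟨0, ha0⟩, ⟨0, hb0⟩)⟩
  obtain ⟨ρ, q, nx, hρ, hst⟩ := hSTR (BV N a b) (FF a b σ h) P D hP
  have hfin := hCNT N a b L (m * p) (e + r * p) P nx hb (by
    intro α hα
    obtain ⟨C, hC, β, i, O, hi, hO, hco, hcl⟩ := hGAM N M k a b σ h r p L m D P ρ q nx α hr hrk
      hp hab h2 hst hP.1 hρ hD hα
    refine ⟨C, hC, β, i, O, hi, hO, hco, ?_⟩
    obtain ⟨J, hJ, hVJ⟩ := hGEN N M k σ r p (UB nx C β i ∪ O) hcl
    have h3 := h1 J hJ
    have h4 : (VJ σ J).card ≤ (VJ σ J \ (UB nx C β i ∪ O)).card + (UB nx C β i ∪ O).card := by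
      have := Finset.card_le_card (show VJ σ J ⊆ (VJ σ J \ (UB nx C β i ∪ O)) ∪
        (UB nx C β i ∪ O) by
          intro y hy
          by_cases hyX : y ∈ UB nx C β i ∪ O
          · exact Finset.mem_union_right _ hyX
          · exact Finset.mem_union_left _ (Finset.mem_sdiff.mpr ⟨hy, hyX⟩))
      exact this.trans (Finset.card_union_le _ _)
    omega)
  exact hfin

end Pool.Agent.H86.SD
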